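import Pool.Agent.E8helper48.RR.Stm

/-! Pieces LIM and NZ of the project RR. -/

set_option autoImplicit false

namespace RR85

open Filter Topology RR48

lemma nn {al A B D : ℝ} {x : ℕ → ℝ} (hal : 0 ≤ al) (h : IsSol al A B D x) : ∀ n, 0 ≤ x n := by
  have key : ∀ n, 0 ≤ x n ∧ 0 ≤ x (n + 1) ∧ 0 ≤ x (n + 2) := by
    intro n
    induction n with
    | zero => exact ⟨h.n0, h.n1, h.n2⟩
    | succ n ih =>
      refine ⟨ih.2.1, ih.2.2, ?_⟩
      rw [show n + 1 + 2 = n + 3 from rfl, h.step n]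
      exact div_nonneg (add_nonneg hal ih.2.1) (h.den n).le
  exact fun n => (key n).1

lemma small_of {x : ℕ → ℝ} {p q : ℝ} (hp : Tendsto (fun k => x (2 * k)) atTop (𝓝 p))
    (hq : Tendsto (fun k => x (2 * k + 1)) atTop (𝓝 q)) {y : ℕ → ℝ}
    (hy0 : ∀ k, y (2 * k) = p) (hy1 : ∀ k, y (2 * k + 1) = q) :
    Tendsto (fun n => x n - y n) atTop (𝓝 0) := by
  rw [Metric.tendsto_atTop]
  intro ε hε
  obtain ⟨N1, h1⟩ := Metric.tendsto_atTop.1 hp ε hε
  obtain ⟨N2, h2⟩ := Metric.tendsto_atTop.1 hq ε hε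
  refine ⟨2 * (N1 + N2) + 2, fun n hn => ?_⟩
  rcases Nat.even_or_odd' n with ⟨k, rfl | rfl⟩
  · have h3 := h1 k (by omega)
    rw [Real.dist_eq] at h3 ⊢
    rw [hy0, sub_zero]
    exact h3
  · have h3 := h2 k (by omega)
    rw [Real.dist_eq] at h3 ⊢
    rw [hy1, sub_zero]
    exact h3

theorem t_LIM : S_LIM := by
  intro al A B D x p q hal hA hB hD hs hp hq hpos
  have hx := nn hal hs
  have hp0 : 0 ≤ p := ge_of_tendsto' hp (fun k => hx _)
  have hq0 : 0 ≤ q := ge_of_tendsto' hq (fun k => hx _)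
  have d1 : 0 < A + B * p + q + D * p := by
    rcases hpos with h | h | h <;> positivity
  have d2 : 0 < A + B * q + p + D * q := by
    rcases hpos with h | h | h <;> positivity
  have hp1 : Tendsto (fun k => x (2 * k + 2)) atTop (𝓝 p) := hp.comp (tendsto_add_atTop_nat 1)
  have hq1 : Tendsto (fun k => x (2 * k + 3)) atTop (𝓝 q) := hq.comp (tendsto_add_atTop_nat 1)
  have hp2 : Tendsto (fun k => x (2 * k + 4)) atTop (𝓝 p) := hp.comp (tendsto_add_atTop_nat 2)
  have e1 : q = (al + q) / (A + B * p + q + D * p) := by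
    refine tendsto_nhds_unique hq1 ?_
    have h1 : Tendsto (fun k => (al + x (2 * k + 1)) /
        (A + B * x (2 * k + 2) + x (2 * k + 1) + D * x (2 * k))) atTop
        (𝓝 ((al + q) / (A + B * p + q + D * p))) := by
      refine Tendsto.div (tendsto_const_nhds.add hq) ?_ d1.ne'
      exact ((tendsto_const_nhds.add (hp1.const_mul B)).add hq).add (hp.const_mul D)
    exact h1.congr (fun k => (hs.step (2 * k)).symm)
  have e2 : p = (al + p) / (A + B * q + p + D * q) := by
    refine tendsto_nhds_unique hp2 ?_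
    have h1 : Tendsto (fun k => (al + x (2 * k + 2)) /
        (A + B * x (2 * k + 3) + x (2 * k + 2) + D * x (2 * k + 1))) atTop
        (𝓝 ((al + p) / (A + B * q + p + D * q))) := by
      refine Tendsto.div (tendsto_const_nhds.add hp1) ?_ d2.ne'
      exact ((tendsto_const_nhds.add (hq1.const_mul B)).add hp1).add (hq.const_mul D)
    exact h1.congr (fun k => (hs.step (2 * k + 1)).symm)
  let y : ℕ → ℝ := fun n => if n % 2 = 0 then p else q
  have y0 : ∀ k, y (2 * k) = p := fun k => by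
    show (if (2 * k) % 2 = 0 then p else q) = p
    rw [if_pos (by omega)]
  have y1 : ∀ k, y (2 * k + 1) = q := fun k => by
    show (if (2 * k + 1) % 2 = 0 then p else q) = q
    rw [if_neg (by omega)]
  have y2 : ∀ k, y (2 * k + 2) = p := fun k => y0 (k + 1)
  have y3 : ∀ k, y (2 * k + 3) = q := fun k => y1 (k + 1)
  have y4 : ∀ k, y (2 * k + 4) = p := fun k => y0 (k + 2)
  refine ⟨y, ⟨?_, ?_, ?_, ?_, ?_⟩, ?_, small_of hp hq y0 y1⟩
  · rw [show (0 : ℕ) = 2 * 0 from rfl, y0]; exact hp0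
  · rw [show (1 : ℕ) = 2 * 0 + 1 from rfl, y1]; exact hq0
  · rw [show (2 : ℕ) = 2 * 0 + 2 from rfl, y2]; exact hp0
  · intro n
    rcases Nat.even_or_odd' n with ⟨k, rfl | rfl⟩
    · rw [y0, y1, y2]; exact d1
    · rw [show 2 * k + 1 + 2 = 2 * k + 3 from rfl, show 2 * k + 1 + 1 = 2 * k + 2 from rfl,
        y1, y2, y3]
      exact d2
  · intro n
    rcases Nat.even_or_odd' n with ⟨k, rfl | rfl⟩
    · rw [y0, y1, y2, y3]; exact e1
    · rw [show 2 * k + 1 + 2 = 2 * k + 3 from rfl, show 2 * k + 1 + 1 = 2 * k + 2 from rfl,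
        show 2 * k + 1 + 3 = 2 * k + 4 from rfl, y1, y2, y3, y4]
      exact e2
  · intro n
    rcases Nat.even_or_odd' n with ⟨k, rfl | rfl⟩
    · rw [y0, y2]
    · rw [show 2 * k + 1 + 2 = 2 * k + 3 from rfl, y1, y3]

theorem t_NZ : S_NZ := by
  intro B D x p q hB hD hs hp hq
  have hx := nn le_rfl hs
  have hp0 : 0 ≤ p := ge_of_tendsto' hp (fun k => hx _)
  have hq0 : 0 ≤ q := ge_of_tendsto' hq (fun k => hx _)
  by_contra hcon
  push Not at hcon
  obtain rfl : p = 0 := le_antisymm hcon.1 hp0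
  obtain rfl : q = 0 := le_antisymm hcon.2 hq0
  have hx0 : Tendsto (fun n => x n - (0 : ℝ)) atTop (𝓝 0) :=
    small_of (y := fun _ => 0) hp hq (fun _ => rfl) (fun _ => rfl)
  have small : ∀ ε : ℝ, 0 < ε → ∃ N, ∀ n ≥ N, x n < ε := by
    intro ε hε
    obtain ⟨N, hN⟩ := Metric.tendsto_atTop.1 hx0 ε hε
    refine ⟨N, fun n hn => ?_⟩
    have h1 := hN n hn
    rw [Real.dist_eq, sub_zero, sub_zero] at h1
    exact lt_of_le_of_lt (le_abs_self _) h1
  have hS : 0 < B + 1 + D := by positivity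
  obtain ⟨N, hN⟩ := small (1 / (B + 1 + D)) (by positivity)
  have hQ : ∀ n ≥ N, 0 + B * x (n + 2) + x (n + 1) + D * x n ≤ 1 := by
    intro n hn
    have h1 := (hN n hn).le
    have h2 := (hN (n + 1) (by omega)).le
    have h3 := (hN (n + 2) (by omega)).le
    have h4 : (B + 1 + D) * (1 / (B + 1 + D)) = 1 := by field_simp
    have h5 := mul_le_mul_of_nonneg_left h3 hB
    have h6 := mul_le_mul_of_nonneg_left h1 hD.le
    nlinarith
  obtain ⟨m, hm, hxm⟩ : ∃ m, N + 1 ≤ m ∧ 0 < x m := by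
    by_contra hc
    push Not at hc
    have h1 : x (N + 1) = 0 := le_antisymm (hc _ (by omega)) (hx _)
    have h2 : x (N + 2) = 0 := le_antisymm (hc _ (by omega)) (hx _)
    have h3 : x (N + 3) = 0 := le_antisymm (hc _ (by omega)) (hx _)
    have h4 := hs.den (N + 1)
    rw [show N + 1 + 2 = N + 3 from rfl, show N + 1 + 1 = N + 2 from rfl, h1, h2, h3] at h4
    simp at h4
  have grow : ∀ j, x m ≤ x (m + 2 * j) := by
    intro j
    induction j with
    | zero => simp
    | succ j ih =>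
      obtain ⟨n, hn⟩ : ∃ n, m + 2 * j = n + 1 := ⟨m + 2 * j - 1, by omega⟩
      have h1 : m + 2 * (j + 1) = n + 3 := by omega
      rw [h1, hs.step n, zero_add]
      rw [hn] at ih
      refine ih.trans ?_
      rw [le_div_iff₀ (hs.den n)]
      have h2 := hQ n (by omega)
      have h3 := hx (n + 1)
      nlinarith
  obtain ⟨N', hN'⟩ := small (x m) hxm
  have h1 := hN' (m + 2 * N') (by omega)
  exact absurd (grow N') (not_le.2 h1)

end RR85
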